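import Mathlib
import Pool.Agent.H.MP_c984ee_an.A
import Pool.Agent.H.MP_c984ee_an.B

open MeasureTheory Set Filter Topology Metric

namespace Pool.Agent.Results.MP_c984ee_an.No

def Sq (a u : ℂ) : Set ℂ := {z | ∃ s ∈ Icc (0 : ℝ) 1, ∃ t ∈ Icc (0 : ℝ) 1,
  z = a + u * (s + t * Complex.I)}

def Ap (p : ℝ) (w : ℂ → ℝ) : Prop :=
  LocallyIntegrable w ∧ LocallyIntegrable (fun z => w z ^ (-1 / (p - 1))) ∧ (∀ᵐ z, 0 < w z) ∧
    ∃ C : ℝ, ∀ a u : ℂ, u ≠ 0 →
      (⨍ z in Sq a u, w z) * (⨍ z in Sq a u, w z ^ (-1 / (p - 1))) ^ (p - 1) ≤ C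

def BeurlingAt (f : ℂ → ℂ) (z v : ℂ) : Prop :=
  (∀ ε > 0, IntegrableOn (fun ζ => f ζ / (z - ζ) ^ 2) {ζ | ε < ‖z - ζ‖}) ∧
    Tendsto (fun ε : ℝ => -(1 / Real.pi : ℂ) * ∫ ζ in {ζ | ε < ‖z - ζ‖}, f ζ / (z - ζ) ^ 2)
      (𝓝[>] 0) (𝓝 v)

open Pool.Agent.H.MP_c984ee_an in
theorem result : ∃ (w : ℂ → ℝ) (f : ℂ → ℂ), ¬ f =ᵐ[volume] 0 ∧ (∀ᵐ z, BeurlingAt f z (-f z)) ∧
    ∀ p : ℝ, 1 < p → Ap p w ∧
      MemLp f (ENNReal.ofReal p) (volume.withDensity fun z => ENNReal.ofReal (w z)) := by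
  have mp := Complex.volume_preserving_equiv_real_prod
  refine ⟨w, fun z => g z.im, fun h => ?_, ?_, fun p hp => ⟨⟨wc.locallyIntegrable,
    (wc.rpow_const fun z => Or.inl (w0 z).ne').locallyIntegrable, .of_forall w0, 576,
    fun a u hu => ?_⟩, ?_⟩⟩
  · obtain ⟨z, h1, h2⟩ := Measure.exists_mem_of_measure_ne_zero_of_ae
      (s := Complex.im ⁻¹' Ioo 0 1) ((isOpen_Ioo.preimage Complex.continuous_im).measure_ne_zero
        volume ⟨Complex.I / 2, by simp; norm_num⟩) (ae_restrict_of_ae h)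
    simp [g, indicator_of_mem (show z.im ∈ Ioo (0 : ℝ) 1 from h1)] at h2
  · have k : ∀ c : ℝ, ∀ᵐ z : ℂ, z.im ≠ c := fun c =>
      (Measure.quasiMeasurePreserving_snd.comp mp.quasiMeasurePreserving).ae
        (p := fun t : ℝ => t ≠ c) (compl_mem_ae_iff.2 (measure_singleton c))
    filter_upwards [k 0, k 1] with z h0 h1
    refine ⟨fun ε hε => (pv z hε).1, tendsto_const_nhds.congr' ?_⟩
    have e : ∀ᶠ t in 𝓝 z.im, g t = g z.im := by
      by_cases hz : z.im ∈ Ioo (0 : ℝ) 1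
      · filter_upwards [isOpen_Ioo.mem_nhds hz] with t ht
        simp [g, indicator_of_mem ht, indicator_of_mem hz]
      · have hz' : z.im ∈ (Icc (0 : ℝ) 1)ᶜ := fun h =>
          hz ⟨h.1.lt_of_ne' h0, h.2.lt_of_ne h1⟩
        filter_upwards [isClosed_Icc.isOpen_compl.mem_nhds hz'] with t ht
        rw [g, g, indicator_of_notMem hz, indicator_of_notMem fun h => ht (Ioo_subset_Icc_self h)]
    obtain ⟨δ, δ0, hδ⟩ := Metric.eventually_nhds_iff.1 e
    filter_upwards [Ioo_mem_nhdsGT δ0] with ε hε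
    rw [(pv z hε.1).2 fun t ht => hδ (by simpa using ht.trans hε.2)]
    have : (Real.pi : ℂ) ≠ 0 := by simp
    field_simp
  · have u0 := norm_pos_iff.2 hu
    have h2 : Sq a u ⊆ ball a (2 * ‖u‖) := by
      rintro _ ⟨s, hs, t, ht, rfl⟩
      have : ‖(s : ℂ) + t * Complex.I‖ < 2 := lt_of_pow_lt_pow_left₀ 2 (by norm_num) (by
        rw [Complex.sq_norm, Complex.normSq_add_mul_I]
        nlinarith [hs.1, hs.2, ht.1, ht.2])
      rw [mem_ball_iff_norm, add_sub_cancel_left, norm_mul]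
      nlinarith
    have h1 : ball (a + u * (1 / 2 + 1 / 2 * Complex.I)) (2 * ‖u‖ / 4) ⊆ Sq a u := by
      intro z hz
      have b : ‖(z - a) / u - (1 / 2 + 1 / 2 * Complex.I)‖ < 1 / 2 := by
        rw [mem_ball_iff_norm] at hz
        rw [div_sub' hu, norm_div, div_lt_iff₀ u0, sub_sub]
        linarith
      have b1 := abs_lt.1 ((Complex.abs_re_le_norm _).trans_lt b)
      have b2 := abs_lt.1 ((Complex.abs_im_le_norm _).trans_lt b)
      simp at b1 b2
      refine ⟨((z - a) / u).re, ⟨by linarith, by linarith⟩, ((z - a) / u).im,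
        ⟨by linarith, by linarith⟩, ?_⟩
      rw [Complex.re_add_im]
      field_simp
      ring
    have M0 : 0 < 1 + ‖a‖ + 2 * ‖u‖ := by positivity
    refine (mul_le_mul (avg (by positivity) h1 h2) (avg2 (by positivity) hp h2)
      (Real.rpow_nonneg (integral_nonneg fun z => Real.rpow_nonneg (w0 z).le _) _)
      (by positivity)).trans (le_of_eq ?_)
    rw [mul_assoc, ← Real.rpow_add M0]
    simp
  · have ms : MeasurableSet (Complex.im ⁻¹' Ioo 0 1) := Complex.measurable_im measurableSet_Ioo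
    have e : (fun z : ℂ => g z.im) = (Complex.im ⁻¹' Ioo 0 1).indicator fun _ => 1 := by
      ext z
      simp [g, indicator]
    have i1 : Integrable fun s : ℝ => (1 + ‖s‖) ^ (-(3 / 2 : ℝ)) :=
      integrable_one_add_norm (by simp; norm_num)
    have i2 := (mp.integrable_comp_emb Complex.measurableEquivRealProd.measurableEmbedding).2
      (i1.mul_prod gi)
    have i3 : IntegrableOn w (Complex.im ⁻¹' Ioo 0 1) := by
      refine i2.integrableOn.mono' wc.aestronglyMeasurable ((ae_restrict_mem ms).mono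
        fun z hz => ?_)
      simp only [Function.comp_apply, Complex.measurableEquivRealProd_apply, g,
        indicator_of_mem (show z.im ∈ Ioo (0 : ℝ) 1 from hz), Pi.one_apply, norm_one, mul_one,
        Real.norm_of_nonneg (w0 z).le]
      exact Real.rpow_le_rpow_of_nonpos (by positivity)
        (by linarith [Complex.abs_re_le_norm z, Real.norm_eq_abs z.re]) (by norm_num)
    rw [e]
    refine memLp_indicator_const _ ms _ (Or.inr ?_)
    rw [withDensity_apply _ ms]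
    exact i3.lintegral_lt_top.ne

end Pool.Agent.Results.MP_c984ee_an.No
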